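import Pool.Agent.Helper47.GO.Main
import Pool.Agent.Helper47.ForceCH

set_option autoImplicit false

namespace Pool.Agent.Results.MP_70f607_gt.Consistency

open Pool.Agent.Helper47.ForceCH (OmegaOnePreserved CHHolds)

/-- (1) Some notion of forcing forces the continuum hypothesis over any ground model, without
collapsing `ω₁`. (2) The continuum hypothesis implies that there is a set `X` of irrationals such
that `C_p(X)` satisfies `S₁(Γ_0, Ω_0)` but `X` does not satisfy `S₁(Γ, Ω)`. -/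
theorem result :
    (∃ (P : Type) (_ : Preorder P), Nonempty P ∧
      ∀ p : P, p ∈ OmegaOnePreserved P ∧ p ∈ CHHolds P) ∧
    (Cardinal.aleph 1 = Cardinal.continuum.{0} →
    ∃ X : Set ℝ, (∀ x ∈ X, Irrational x) ∧
    (∀ A : ℕ → Set C(X, ℝ),
      (∀ n, (A n).Infinite ∧ (0 : C(X, ℝ)) ∉ A n ∧
        ∀ F : Finset X, ∀ ε : ℝ, 0 < ε →
          {f ∈ A n | ¬ ∀ x ∈ F, |f x| < ε}.Finite) →
      ∃ f : ℕ → C(X, ℝ), (∀ n, f n ∈ A n) ∧
        ∀ F : Finset X, ∀ ε : ℝ, 0 < ε → ∃ n, ∀ x ∈ F, |f n x| < ε) ∧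
    ¬ (∀ 𝒰 : ℕ → Set (Set X),
      (∀ n, (∀ U ∈ 𝒰 n, IsOpen U) ∧ (𝒰 n).Infinite ∧ Set.univ ∉ 𝒰 n ∧
        ∀ x : X, {U ∈ 𝒰 n | x ∉ U}.Finite) →
      ∃ U : ℕ → Set X, (∀ n, U n ∈ 𝒰 n) ∧
        ∀ F : Finset X, ∃ n, (↑F : Set X) ⊆ U n)) := by
  refine ⟨?_, fun CH => Pool.Agent.Helper47.GO.main CH⟩
  obtain ⟨P, h1, h2, h3⟩ := Pool.Agent.Helper47.ForceCH.exists_forcing
  exact ⟨P, h1, h2, fun p => ⟨(h3 p).1, (h3 p).2.2⟩⟩

end Pool.Agent.Results.MP_70f607_gt.Consistency
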